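import Pool.Agent.helper94.FM.Spec

set_option autoImplicit false

open Finset Filter Topology NumberField Module

namespace Pool.Agent.FM

open Pool.Agent.helper9.Tors

theorem V1_two (K : Type) [Field K] [NumberField K] (h2 : finrank ℚ K = 2) (p m x : ℕ) (γ : 𝓞 K) (I J : Ideal (𝓞 K))
    (hp : p ≠ 0) (h : IsRep p m x γ I J) (hlt : x ^ 2 < 4 * m ^ p) (hx : Nat.Coprime x m) (k : ℤ) (L : Ideal (𝓞 K))
    (hI : I = Ideal.span {(k : 𝓞 K)} * L) : IsUnit k := by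
  have hdvd : (k : 𝓞 K) ∣ γ := by
    have h1 : Ideal.span {(k : 𝓞 K)} ∣ Ideal.span {γ} := by
      rw [← h.powI]
      exact (Dvd.intro _ hI.symm).trans (dvd_pow_self _ hp)
    rw [Ideal.dvd_span_singleton, Ideal.mem_span_singleton] at h1
    exact h1
  obtain ⟨β, hβ⟩ := hdvd
  obtain ⟨t, n, b, h3, -, -⟩ := quad_rel h2 β
  have heq : γ ^ 2 - (((x : ℤ)) : 𝓞 K) * γ + (((m : ℤ) ^ p : ℤ) : 𝓞 K) = 0 := by
    have h4 := h.eq
    push_cast
    exact h4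
  have hneg : (x : ℤ) ^ 2 - 4 * (m : ℤ) ^ p < 0 := by
    have h4 : ((x : ℤ)) ^ 2 < 4 * (m : ℤ) ^ p := by exact_mod_cast hlt
    linarith
  have h5 : (((x : ℤ) - k * t : ℤ) : 𝓞 K) * γ = (((m : ℤ) ^ p - k ^ 2 * n : ℤ) : 𝓞 K) := by
    have h6 : γ ^ 2 - ((k : 𝓞 K) * (t : 𝓞 K)) * γ + (k : 𝓞 K) ^ 2 * (n : 𝓞 K) = 0 := by
      rw [hβ]
      linear_combination (k : 𝓞 K) ^ 2 * h3
    push_cast
    push_cast at heq
    linear_combination h6 - heq
  have h6 : (x : ℤ) - k * t = 0 := irrational_of γ x ((m : ℤ) ^ p) heq hneg _ _ h5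
  have hkx : k ∣ (x : ℤ) := ⟨t, by linarith⟩
  have hkm : k ∣ (m : ℤ) := by
    have h7 := h.absNorm_eq h2 hp hlt
    rw [hI, map_mul, Ideal.absNorm_span_singleton, norm_int h2, Int.natAbs_pow] at h7
    rw [← Int.natAbs_dvd, ← h7]
    push_cast
    exact Dvd.dvd.mul_right (dvd_pow_self _ two_ne_zero) _
  have hco : IsCoprime (x : ℤ) (m : ℤ) := Nat.isCoprime_iff_coprime.mpr hx
  exact hco.isUnit_of_dvd' hkx hkm

theorem V1 : V1_stmt := by
  intro K _ _ h2 hD p m x γ I J hp hm h hlt hx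
  refine ⟨?_, fun k L hI => V1_two K h2 p m x γ I J hp h hlt hx k L hI⟩
  intro a ha
  have hmJ : (m : 𝓞 K) ∈ J := by
    have h1 : (m : 𝓞 K) ∈ I * J := by
      rw [h.mul]
      exact Ideal.mem_span_singleton_self _
    exact Ideal.mul_le_right h1
  have hgJ : ((Int.gcd a m : ℤ) : 𝓞 K) ∈ J := by
    have h1 := Int.gcd_eq_gcd_ab a m
    rw [h1]
    push_cast
    exact J.add_mem (J.mul_mem_right _ ha) (J.mul_mem_right _ hmJ)
  have hdJ : J ∣ Ideal.span {((Int.gcd a m : ℤ) : 𝓞 K)} := by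
    rw [Ideal.dvd_span_singleton]
    exact hgJ
  obtain ⟨L, hL⟩ := hdJ
  obtain ⟨k, hk⟩ : (Int.gcd a m : ℤ) ∣ (m : ℤ) := Int.gcd_dvd_right _ _
  have hI : I = Ideal.span {(k : 𝓞 K)} * L := by
    have h1 := h.mul
    have h3 : (m : 𝓞 K) = ((Int.gcd a m : ℤ) : 𝓞 K) * (k : 𝓞 K) := by
      have h4 := congrArg (fun z : ℤ => (z : 𝓞 K)) hk
      push_cast at h4 ⊢
      exact h4
    rw [h3, ← Ideal.span_singleton_mul_span_singleton, hL] at h1
    have hJ0 : J ≠ 0 := nonZeroDivisors.ne_zero (h.ne_zeroJ hm)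
    have h4 : J * I = J * (Ideal.span {(k : 𝓞 K)} * L) := by
      rw [mul_comm J I, h1]
      ring
    exact mul_left_cancel₀ hJ0 h4
  have hu := V1_two K h2 p m x γ I J hp h hlt hx k L hI
  have h3 : (m : ℤ) ∣ (Int.gcd a m : ℤ) := by
    rcases Int.isUnit_iff.mp hu with h4 | h4
    · exact ⟨1, by rw [h4] at hk; linarith⟩
    · exact ⟨-1, by rw [h4] at hk; linarith⟩
  exact h3.trans (Int.gcd_dvd_left _ _)

end Pool.Agent.FM
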